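import Mathlib

/-!
Definitions: coherent sequences, threads, the principle `□(λ, <η)` and simultaneous reflection.
-/

namespace Pool.Agent.MP_c650be_lc

open Cardinal Ordinal Set

universe u

/-- `acc A` is the set of `β < sup {α + 1 : α ∈ A}` with `β = sup (A ∩ β)`. -/
def acc (A : Set Ordinal.{u}) : Set Ordinal.{u} :=
  {β | β < sSup ((fun α => α + 1) '' A) ∧ β = sSup (A ∩ Iio β)}

/-- `C` is a club in the ordinal `δ`. -/
def ClubIn (C : Set Ordinal.{u}) (δ : Ordinal.{u}) : Prop :=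
  C ⊆ Iio δ ∧ IsClub ((↑) ⁻¹' C : Set (Iio δ))

/-- `S ∩ δ` is stationary in the ordinal `δ`. -/
def StatIn (S : Set Ordinal.{u}) (δ : Ordinal.{u}) : Prop :=
  IsStationary ((↑) ⁻¹' S : Set (Iio δ))

/-- A coherent sequence of length `l` and width `< η`. -/
def IsCoherent (l : Ordinal.{u}) (η : Cardinal.{u}) (𝒞 : Ordinal.{u} → Set (Set Ordinal.{u})) :
    Prop :=
  (∀ α < l, (𝒞 α).Nonempty ∧ (∀ C ∈ 𝒞 α, ClubIn C α) ∧ #(𝒞 α) < Cardinal.lift.{u + 1} η) ∧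
  ∀ β < l, ∀ C ∈ 𝒞 β, ∀ α ∈ acc C, C ∩ Iio α ∈ 𝒞 α

/-- A thread through a sequence of length `l`. -/
def IsThread (l : Ordinal.{u}) (𝒞 : Ordinal.{u} → Set (Set Ordinal.{u})) (D : Set Ordinal.{u}) :
    Prop :=
  ClubIn D l ∧ ∀ α ∈ acc D, D ∩ Iio α ∈ 𝒞 α

/-- The principle `□(l, <η)`: there is a coherent sequence of width `< η` without a thread. -/
def Square (l : Ordinal.{u}) (η : Cardinal.{u}) : Prop :=
  ∃ 𝒞, IsCoherent l η 𝒞 ∧ ¬ ∃ D, IsThread l 𝒞 D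

/-- `S` reflects at `α`: `α` has uncountable cofinality and `S ∩ α` is stationary in `α`. -/
def ReflectsAt (S : Set Ordinal.{u}) (α : Ordinal.{u}) : Prop :=
  ℵ₀ < α.cof ∧ StatIn S α

/-- `Refl(<κ, S)` for `S ⊆ l`: every family of fewer than `κ` subsets of `S` that are stationary in
`l` reflects at a common point `α < l`. -/
def Refl (l : Ordinal.{u}) (κ : Cardinal.{u}) (S : Set Ordinal.{u}) : Prop :=
  ∀ F : Set (Set Ordinal.{u}), #F < Cardinal.lift.{u + 1} κ → (∀ A ∈ F, A ⊆ S ∧ StatIn A l) →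
    ∃ α < l, ∀ A ∈ F, ReflectsAt A α

end Pool.Agent.MP_c650be_lc
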